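import Pool.Agent.H4R2.AE.Conc

/-!
One-sided exponential concentration from the Efron-Stein inequality.
-/

set_option autoImplicit false

open scoped BigOperators
open MeasureTheory

namespace Pool.Agent.H742Z.GP.Limit

open Pool.Agent.H4R2.AE.Conc

variable {ι : Type} [Fintype ι] [DecidableEq ι] {μ : Measure ℝ} [IsProbabilityMeasure μ]

theorem exp_diff_sq1 {l : ℝ} (hl : 0 ≤ l) (a b : ℝ) :
    (Real.exp (l / 2 * a) - Real.exp (l / 2 * b)) ^ 2 ≤
      l ^ 2 / 4 * ((max 0 (a - b)) ^ 2 * Real.exp (l * a)) +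
        l ^ 2 / 4 * ((max 0 (b - a)) ^ 2 * Real.exp (l * b)) := by
  have key : ∀ a b : ℝ, b ≤ a → (Real.exp (l / 2 * a) - Real.exp (l / 2 * b)) ^ 2 ≤
      l ^ 2 / 4 * ((max 0 (a - b)) ^ 2 * Real.exp (l * a)) := by
    intro a b hab
    have hab' : l / 2 * b ≤ l / 2 * a := mul_le_mul_of_nonneg_left hab (by positivity)
    have h1 : Real.exp (l / 2 * a) - Real.exp (l / 2 * b) ≤
        (l / 2 * a - l / 2 * b) * Real.exp (l / 2 * a) := by
      have h2 := Real.add_one_le_exp (l / 2 * b - l / 2 * a)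
      have h3 : Real.exp (l / 2 * b) = Real.exp (l / 2 * a) * Real.exp (l / 2 * b - l / 2 * a) := by
        rw [← Real.exp_add]; ring_nf
      rw [h3]
      nlinarith [Real.exp_pos (l / 2 * a)]
    have h0 : 0 ≤ Real.exp (l / 2 * a) - Real.exp (l / 2 * b) :=
      sub_nonneg.2 (Real.exp_le_exp.2 hab')
    have h4 := pow_le_pow_left₀ h0 h1 2
    have h5 : Real.exp (l / 2 * a) ^ 2 = Real.exp (l * a) := by
      rw [← Real.exp_nat_mul]; congr 1; push_cast; ring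
    rw [mul_pow, h5] at h4
    rw [max_eq_right (sub_nonneg.2 hab)]
    refine h4.trans (le_of_eq ?_)
    ring
  rcases le_total b a with h | h
  · have h1 := key a b h
    have h2 : 0 ≤ l ^ 2 / 4 * ((max 0 (b - a)) ^ 2 * Real.exp (l * b)) := by positivity
    linarith
  · have h1 := key b a h
    have h2 : 0 ≤ l ^ 2 / 4 * ((max 0 (a - b)) ^ 2 * Real.exp (l * a)) := by positivity
    nlinarith

/-- one halving step for the exponential moment -/
theorem exp_step1 (F : (ι → ℝ) → ℝ) (hF : Measurable F) (B : ℝ) (hB : ∀ ω, |F ω| ≤ B) (K : ℝ)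
    (h : ∀ ω τ : ι → ℝ, ∑ z, (max 0 (F ω - F (Function.update ω z (τ z)))) ^ 2 ≤ K ^ 2) (l : ℝ)
    (hl0 : 0 ≤ l)
    (hl : l ^ 2 * K ^ 2 ≤ 1) :
    ∫ ω, Real.exp (l * F ω) ∂(PP ι μ) ≤
      Real.exp (l ^ 2 * K ^ 2 / 3) * (∫ ω, Real.exp (l / 2 * F ω) ∂(PP ι μ)) ^ 2 := by
  have eb : ∀ (c : ℝ) (ω : ι → ℝ), Real.exp (c * F ω) ≤ Real.exp (|c| * B) := by
    intro c ω
    apply Real.exp_le_exp.2
    calc c * F ω ≤ |c * F ω| := le_abs_self _
      _ = |c| * |F ω| := abs_mul _ _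
      _ ≤ |c| * B := mul_le_mul_of_nonneg_left (hB ω) (abs_nonneg _)
  have hm : ∀ c : ℝ, Measurable fun ω => Real.exp (c * F ω) := fun c =>
    (hF.const_mul c).exp
  have hms : ∀ S : Finset ι, Measurable fun θ => F (sel S θ) := fun S => hF.comp (meas_sel S)
  have key := efron (μ := μ) (fun ω => Real.exp (l / 2 * F ω)) (hm _) (Real.exp (|l / 2| * B))
    (fun ω => by rw [abs_of_pos (Real.exp_pos _)]; exact eb _ ω)
  have e1 : ∀ ω, Real.exp (l / 2 * F ω) ^ 2 = Real.exp (l * F ω) := by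
    intro ω
    rw [← Real.exp_nat_mul]; congr 1; push_cast; ring
  simp only [e1] at key
  -- bound of the influences
  have dbd : ∀ (A C : Finset ι) (θ : ι → ℝ × ℝ), 
      (max 0 (F (sel A θ) - F (sel C θ))) ^ 2 ≤ (2 * B) ^ 2 := by
    intro A C θ
    apply pow_le_pow_left₀ (le_max_left _ _)
    have h1 := abs_le.1 (hB (sel A θ))
    have h2 := abs_le.1 (hB (sel C θ))
    exact max_le (by linarith) (by linarith)
  have iI : ∀ (A C D : Finset ι), Integrable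
      (fun θ => (max 0 (F (sel A θ) - F (sel C θ))) ^ 2 * Real.exp (l * F (sel D θ)))
      (QQ ι μ) := by
    intro A C D
    refine int_bd (((measurable_const.max ((hms A).sub (hms C))).pow_const 2).mul
      ((hm l).comp (meas_sel D)))
      (C := (2 * B) ^ 2 * Real.exp (|l| * B)) fun θ => ?_
    rw [abs_mul, abs_of_nonneg (sq_nonneg _), abs_of_pos (Real.exp_pos _)]
    exact mul_le_mul (dbd A C θ) (eb l _) (Real.exp_pos _).le (sq_nonneg _)
  have hinf : ∀ j, Inf2 μ (fun ω => Real.exp (l / 2 * F ω)) j ≤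
      l ^ 2 / 2 * ∫ θ, (max 0 (F (sel ∅ θ) - F (sel {j} θ))) ^ 2 * Real.exp (l * F (sel ∅ θ))
        ∂(QQ ι μ) := by
    intro j
    have sym : ∫ θ, (max 0 (F (sel {j} θ) - F (sel ∅ θ))) ^ 2 * Real.exp (l * F (sel {j} θ))
        ∂(QQ ι μ) = ∫ θ, (max 0 (F (sel ∅ θ) - F (sel {j} θ))) ^ 2 * Real.exp (l * F (sel ∅ θ))
        ∂(QQ ι μ) := by
      rw [← int_mp (mp_sw μ {j})
        (g := fun θ => (max 0 (F (sel {j} θ) - F (sel ∅ θ))) ^ 2 * Real.exp (l * F (sel {j} θ)))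
        (((measurable_const.max ((hms {j}).sub (hms ∅))).pow_const 2).mul
          ((hm l).comp (meas_sel {j})))]
      apply integral_congr_ae
      refine Filter.Eventually.of_forall fun θ => ?_
      have h1 : sel {j} (sw {j} θ) = sel ∅ θ := by
        funext i; by_cases hi : i = j <;> simp [sel, sw, hi]
      simp only [sel_empty_sw, h1]
    unfold Inf2
    calc ∫ θ, (Real.exp (l / 2 * F (sel ∅ θ)) - Real.exp (l / 2 * F (sel {j} θ))) ^ 2 ∂(QQ ι μ)
        ≤ ∫ θ, (l ^ 2 / 4 * ((max 0 (F (sel ∅ θ) - F (sel {j} θ))) ^ 2 *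
              Real.exp (l * F (sel ∅ θ))) +
            l ^ 2 / 4 * ((max 0 (F (sel {j} θ) - F (sel ∅ θ))) ^ 2 *
              Real.exp (l * F (sel {j} θ)))) ∂(QQ ι μ) := by
          apply integral_mono_of_nonneg (Filter.Eventually.of_forall fun θ => sq_nonneg _)
            (((iI _ _ _).const_mul _).add ((iI _ _ _).const_mul _))
          refine Filter.Eventually.of_forall fun θ => ?_
          exact exp_diff_sq1 hl0 (F (sel ∅ θ)) (F (sel {j} θ))
      _ = l ^ 2 / 2 * ∫ θ, (max 0 (F (sel ∅ θ) - F (sel {j} θ))) ^ 2 *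
            Real.exp (l * F (sel ∅ θ)) ∂(QQ ι μ) := by
          rw [integral_add ((iI _ _ _).const_mul _) ((iI _ _ _).const_mul _),
            integral_const_mul, integral_const_mul, sym]
          ring
  have hsum : ∑ j, Inf2 μ (fun ω => Real.exp (l / 2 * F ω)) j ≤
      l ^ 2 * K ^ 2 / 2 * ∫ ω, Real.exp (l * F ω) ∂(PP ι μ) := by
    calc ∑ j, Inf2 μ (fun ω => Real.exp (l / 2 * F ω)) j
        ≤ ∑ j, l ^ 2 / 2 * ∫ θ, (max 0 (F (sel ∅ θ) - F (sel {j} θ))) ^ 2 *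
            Real.exp (l * F (sel ∅ θ)) ∂(QQ ι μ) := Finset.sum_le_sum fun j _ => hinf j
      _ = l ^ 2 / 2 * ∫ θ, ∑ j, (max 0 (F (sel ∅ θ) - F (sel {j} θ))) ^ 2 *
            Real.exp (l * F (sel ∅ θ)) ∂(QQ ι μ) := by
          rw [← Finset.mul_sum, integral_finsetSum _ fun j _ => iI _ _ _]
      _ ≤ l ^ 2 / 2 * ∫ θ, K ^ 2 * Real.exp (l * F (sel ∅ θ)) ∂(QQ ι μ) := by
          apply mul_le_mul_of_nonneg_left _ (by positivity)
          apply integral_mono (integrable_finsetSum _ fun j _ => iI _ _ _)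
          · apply Integrable.const_mul
            exact int_bd ((hm l).comp (meas_sel ∅)) (C := Real.exp (|l| * B)) fun θ => by
              rw [abs_of_pos (Real.exp_pos _)]; exact eb l _
          · intro θ
            simp only
            rw [← Finset.sum_mul]
            apply mul_le_mul_of_nonneg_right _ (Real.exp_pos _).le
            refine le_trans (le_of_eq ?_) (h (sel ∅ θ) (sel Finset.univ θ))
            refine Finset.sum_congr rfl fun j _ => ?_
            rw [sel_single j θ]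
      _ = l ^ 2 * K ^ 2 / 2 * ∫ ω, Real.exp (l * F ω) ∂(PP ι μ) := by
          rw [integral_const_mul, int_mp (mp_sel μ ∅) (g := fun ω => Real.exp (l * F ω)) (hm l)]
          ring
  set Y := ∫ ω, Real.exp (l * F ω) ∂(PP ι μ) with hY
  set W := ∫ ω, Real.exp (l / 2 * F ω) ∂(PP ι μ) with hW
  have hY0 : 0 ≤ Y := integral_nonneg fun ω => (Real.exp_pos _).le
  set x := l ^ 2 * K ^ 2 with hx
  have hx0 : 0 ≤ x := by positivity
  have h3 : Y * (1 - x / 4) ≤ W ^ 2 := by nlinarith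
  have h4 : 1 ≤ Real.exp (x / 3) * (1 - x / 4) := by
    have := Real.add_one_le_exp (x / 3)
    nlinarith
  calc Y ≤ Y * (Real.exp (x / 3) * (1 - x / 4)) := by nlinarith
    _ = Real.exp (x / 3) * (Y * (1 - x / 4)) := by ring
    _ ≤ Real.exp (x / 3) * W ^ 2 := mul_le_mul_of_nonneg_left h3 (Real.exp_pos _).le

/-- Exponential moment bound. -/
theorem exp_conc1 (F : (ι → ℝ) → ℝ) (hF : Measurable F) (B : ℝ) (hB : ∀ ω, |F ω| ≤ B) (K : ℝ)
    (h : ∀ ω τ : ι → ℝ, ∑ z, (max 0 (F ω - F (Function.update ω z (τ z)))) ^ 2 ≤ K ^ 2) (l : ℝ)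
    (hl0 : 0 ≤ l)
    (hl : l ^ 2 * K ^ 2 ≤ 1) :
    ∫ ω, Real.exp (l * F ω) ∂(PP ι μ) ≤
      Real.exp (l * ∫ ω, F ω ∂(PP ι μ) + 2 / 3 * (l ^ 2 * K ^ 2)) := by
  have hV0 : 0 ≤ K ^ 2 := sq_nonneg K
  have hB0 : 0 ≤ B := (abs_nonneg _).trans (hB fun _ => 0)
  have nn : ∀ c : ℝ, 0 ≤ ∫ ω, Real.exp (c * F ω) ∂(PP ι μ) := fun c =>
    integral_nonneg fun ω => (Real.exp_pos _).le
  have iter : ∀ j : ℕ, ∀ l : ℝ, 0 ≤ l → l ^ 2 * K ^ 2 ≤ 1 →
      ∫ ω, Real.exp (l * F ω) ∂(PP ι μ) ≤ Real.exp (2 / 3 * (l ^ 2 * K ^ 2)) *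
        (∫ ω, Real.exp (l / 2 ^ j * F ω) ∂(PP ι μ)) ^ (2 ^ j) := by
    intro j
    induction j with
    | zero =>
      intro l _ _
      have hx0 : 0 ≤ l ^ 2 * K ^ 2 := mul_nonneg (sq_nonneg l) hV0
      have h3 := nn l
      have h4 : 1 ≤ Real.exp (2 / 3 * (l ^ 2 * K ^ 2)) := Real.one_le_exp (by linarith)
      simp only [pow_zero, div_one, pow_one]
      nlinarith
    | succ j ih =>
      intro l hl0 hl
      have hx0 : 0 ≤ l ^ 2 * K ^ 2 := mul_nonneg (sq_nonneg l) hV0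
      have h3 := exp_step1 (μ := μ) F hF B hB K h l hl0 hl
      have h4 := ih (l / 2) (by positivity) (by
        have : (l / 2) ^ 2 * K ^ 2 = l ^ 2 * K ^ 2 / 4 := by ring
        rw [this]; linarith)
      have h5 := nn (l / 2)
      have h6 := pow_le_pow_left₀ h5 h4 2
      refine h3.trans ((mul_le_mul_of_nonneg_left h6 (Real.exp_pos _).le).trans ?_)
      rw [mul_pow, ← mul_assoc, ← Real.exp_nat_mul, ← Real.exp_add, ← pow_mul, ← pow_succ]
      have e1 : l / 2 / 2 ^ j = l / 2 ^ (j + 1) := by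
        rw [pow_succ]; field_simp
      rw [e1]
      refine mul_le_mul_of_nonneg_right ?_ (pow_nonneg (nn _) _)
      apply Real.exp_le_exp.2
      push_cast
      nlinarith
  refine le_of_forall_pos_le_add fun ε hε => ?_
  -- choose `j` with a tiny error
  have hcont : Filter.Tendsto (fun j : ℕ => Real.exp (l * ∫ ω, F ω ∂(PP ι μ) +
      2 / 3 * (l ^ 2 * K ^ 2) + l ^ 2 * B ^ 2 * (1 / 2 : ℝ) ^ j)) Filter.atTop
      (nhds (Real.exp (l * ∫ ω, F ω ∂(PP ι μ) + 2 / 3 * (l ^ 2 * K ^ 2)))) := by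
    have h1 : Filter.Tendsto (fun j : ℕ => (1 / 2 : ℝ) ^ j) Filter.atTop (nhds 0) :=
      tendsto_pow_atTop_nhds_zero_of_lt_one (by norm_num) (by norm_num)
    have h2 := (h1.const_mul (l ^ 2 * B ^ 2)).const_add (l * ∫ ω, F ω ∂(PP ι μ) +
      2 / 3 * (l ^ 2 * K ^ 2))
    rw [mul_zero, add_zero] at h2
    exact (Real.continuous_exp.tendsto _).comp h2
  have hev : ∀ᶠ j : ℕ in Filter.atTop, |l| * B ≤ 2 ^ j := by
    have := tendsto_pow_atTop_atTop_of_one_lt (one_lt_two (α := ℝ))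
    exact this.eventually_ge_atTop _
  have hev2 := hcont.eventually_lt_const (lt_add_of_pos_right _ hε)
  obtain ⟨j, hj1, hj2⟩ := (hev.and hev2).exists
  refine le_trans ?_ hj2.le
  have h3 := iter j l hl0 hl
  have h2j : (0 : ℝ) < 2 ^ j := by positivity
  have h4 := exp_small (μ := μ) F hF B hB (t := l / 2 ^ j) (by
    rw [abs_div, abs_of_pos h2j, div_mul_eq_mul_div, div_le_one h2j]; exact hj1)
  have h6 := pow_le_pow_left₀ (nn _) h4 (2 ^ j)
  have h7 := h3.trans (mul_le_mul_of_nonneg_left h6 (Real.exp_pos _).le)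
  rw [← Real.exp_nat_mul, ← Real.exp_add] at h7
  refine h7.trans (Real.exp_le_exp.2 ?_)
  push_cast
  have e1 : (2 : ℝ) ^ j * (l / 2 ^ j * ∫ ω, F ω ∂(PP ι μ) + (l / 2 ^ j) ^ 2 * B ^ 2) =
      l * ∫ ω, F ω ∂(PP ι μ) + l ^ 2 * B ^ 2 * (1 / 2) ^ j := by
    rw [one_div, inv_pow]; field_simp
  rw [e1]
  linarith


end Pool.Agent.H742Z.GP.Limit
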