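import Mathlib

/-!
Convergence of almost subadditive sequences.
-/

set_option autoImplicit false

open Filter Topology

namespace Pool.Agent.H742Z.GP.Limit

/-- fourth root -/
noncomputable def r4 (x : ℝ) : ℝ := Real.sqrt (Real.sqrt x)

theorem r4_nonneg (x : ℝ) : 0 ≤ r4 x := Real.sqrt_nonneg _

theorem r4_sq (x : ℝ) : r4 x ^ 2 = Real.sqrt x := Real.sq_sqrt (Real.sqrt_nonneg x)

theorem r4_pow {x : ℝ} (hx : 0 ≤ x) : r4 x ^ 4 = x := by
  have : r4 x ^ 4 = (r4 x ^ 2) ^ 2 := by ring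
  rw [this, r4_sq, Real.sq_sqrt hx]

theorem r4_le {x s c : ℝ} (hx : 0 ≤ x) (hs : 0 ≤ s) (h : c ^ 4 * x ≤ s) : c * r4 x ≤ r4 s := by
  refine le_of_pow_le_pow_left₀ (n := 4) (by norm_num) (r4_nonneg s) ?_
  rw [mul_pow, r4_pow hx, r4_pow hs]
  exact h

theorem one_le_r4 {s : ℝ} (hs : 1 ≤ s) : 1 ≤ r4 s := by
  refine le_of_pow_le_pow_left₀ (n := 4) (by norm_num) (r4_nonneg s) ?_
  rw [r4_pow (by linarith), one_pow]
  exact hs

theorem log_le_r4 {z : ℝ} (hz : 0 < z) : Real.log z ≤ 4 * r4 z := by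
  have h0 : 0 < r4 z := Real.sqrt_pos.2 (Real.sqrt_pos.2 hz)
  have h1 : Real.log z = 4 * Real.log (r4 z) := by
    conv_lhs => rw [← r4_pow hz.le]
    rw [Real.log_pow]; norm_num
  have h2 := Real.log_le_sub_one_of_pos h0
  linarith

theorem balanced {x y : ℝ} (hx : 0 < x) (hxy : x ≤ y) (hy : y ≤ 2 * x) :
    11 / 10 * r4 (x + y) ^ 3 ≤ r4 x ^ 3 + r4 y ^ 3 := by
  have hy0 : 0 < y := by linarith
  have h1 : 11 / 10 * r4 x ≤ r4 (x + y) := r4_le hx.le (by linarith) (by norm_num; linarith)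
  have h2 : 11 / 10 * r4 y ≤ r4 (x + y) := r4_le hy0.le (by linarith) (by norm_num; linarith)
  have hw : 0 < r4 (x + y) := Real.sqrt_pos.2 (Real.sqrt_pos.2 (by linarith))
  have e1 := r4_pow hx.le
  have e2 := r4_pow hy0.le
  have e3 := r4_pow (x := x + y) (by linarith)
  have h3 := mul_le_mul_of_nonneg_right h1 (pow_nonneg (r4_nonneg x) 3)
  have h4 := mul_le_mul_of_nonneg_right h2 (pow_nonneg (r4_nonneg y) 3)
  refine le_of_mul_le_mul_left ?_ hw
  nlinarith

theorem r4_tendsto : Tendsto (fun n : ℕ => r4 n) atTop atTop :=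
  (Real.tendsto_sqrt_atTop.comp Real.tendsto_sqrt_atTop).comp tendsto_natCast_atTop_atTop

theorem seq_limit (a : ℕ → ℝ) (K C : ℝ) (hK : 0 ≤ K) (hC : 0 ≤ C)
    (hb : ∀ n, |a n| ≤ K * n) (hstep : ∀ m t : ℕ, a (m + t) ≤ a m + K * t)
    (hsub : ∀ x y : ℕ, 1 ≤ x → 1 ≤ y → a (x + y) ≤ a x + a y + C * r4 ((x : ℝ) + y) ^ 3) :
    ∃ m : ℝ, Tendsto (fun n : ℕ => a n / n) atTop (𝓝 m) := by
  set b : ℕ → ℝ := fun n => a n + 10 * C * r4 n ^ 3 with hbdef
  have hab : ∀ n, a n ≤ b n := fun n => by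
    have : 0 ≤ 10 * C * r4 n ^ 3 := mul_nonneg (by positivity) (pow_nonneg (r4_nonneg _) 3)
    simp only [hbdef]; linarith
  have hmul : ∀ m : ℕ, 1 ≤ m → ∀ N : ℕ, 1 ≤ N → b (N * m) ≤ N * b m := by
    intro m hm N
    induction N using Nat.strong_induction_on with
    | _ N ih =>
      intro hN
      by_cases h1 : N = 1
      · subst h1; simp
      obtain ⟨p, q, rfl, hp, hpq, hq⟩ : ∃ p q, N = p + q ∧ 1 ≤ p ∧ p ≤ q ∧ q ≤ 2 * p :=
        ⟨N / 2, N - N / 2, by omega, by omega, by omega, by omega⟩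
      have i1 := ih p (by omega) hp
      have i2 := ih q (by omega) (by omega)
      have hpm : 1 ≤ p * m := Nat.mul_pos hp hm
      have hqm : 1 ≤ q * m := Nat.mul_pos (by omega) hm
      have h2 := hsub (p * m) (q * m) hpm hqm
      have h3 := balanced (x := ((p * m : ℕ) : ℝ)) (y := ((q * m : ℕ) : ℝ))
        (by exact_mod_cast hpm) (by exact_mod_cast Nat.mul_le_mul_right m hpq)
        (by
          have : q * m ≤ 2 * (p * m) := by rw [← mul_assoc]; exact Nat.mul_le_mul_right m hq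
          exact_mod_cast this)
      have h4 := mul_le_mul_of_nonneg_left h3 hC
      have e : (((p + q) * m : ℕ) : ℝ) = ((p * m : ℕ) : ℝ) + ((q * m : ℕ) : ℝ) := by
        push_cast; ring
      simp only [hbdef] at i1 i2 ⊢
      rw [e, add_mul, Nat.cast_add]
      nlinarith
  have hbdd : BddBelow (Set.range fun m : ℕ => b (m + 1) / ((m + 1 : ℕ) : ℝ)) := by
    refine ⟨-K, ?_⟩
    rintro _ ⟨m, rfl⟩
    have h1 := (abs_le.1 (hb (m + 1))).1
    have h2 := hab (m + 1)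
    rw [le_div_iff₀ (by positivity)]
    linarith
  refine ⟨⨅ m : ℕ, b (m + 1) / ((m + 1 : ℕ) : ℝ), tendsto_order.2 ⟨fun c hc => ?_, fun c hc => ?_⟩⟩
  · set L := ⨅ m : ℕ, b (m + 1) / ((m + 1 : ℕ) : ℝ) with hL
    have h1 : Tendsto (fun n : ℕ => L - 10 * C / r4 n) atTop (𝓝 (L - 0)) :=
      tendsto_const_nhds.sub (tendsto_const_nhds.div_atTop r4_tendsto)
    rw [sub_zero] at h1
    filter_upwards [h1.eventually_const_lt hc, eventually_ge_atTop 1] with n hn hn1
    obtain ⟨k, rfl⟩ : ∃ k, n = k + 1 := ⟨n - 1, by omega⟩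
    have h2 : L ≤ b (k + 1) / ((k + 1 : ℕ) : ℝ) := ciInf_le hbdd k
    have hpos : (0 : ℝ) < ((k + 1 : ℕ) : ℝ) := by positivity
    have h3 : 0 < r4 ((k + 1 : ℕ) : ℝ) := Real.sqrt_pos.2 (Real.sqrt_pos.2 hpos)
    have h4 : b (k + 1) / ((k + 1 : ℕ) : ℝ) =
        a (k + 1) / ((k + 1 : ℕ) : ℝ) + 10 * C / r4 ((k + 1 : ℕ) : ℝ) := by
      simp only [hbdef]
      rw [add_div]
      congr 1
      rw [div_eq_div_iff hpos.ne' h3.ne']
      have := r4_pow hpos.le
      linear_combination 10 * C * this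
    linarith
  · obtain ⟨k, hk⟩ := exists_lt_of_ciInf_lt hc
    set m := k + 1 with hm
    have hm0 : (0 : ℝ) < m := by positivity
    have h1 : Tendsto (fun n : ℕ => b m / m + (|b m| + K * m) / n) atTop (𝓝 (b m / m + 0)) :=
      tendsto_const_nhds.add (tendsto_const_nhds.div_atTop tendsto_natCast_atTop_atTop)
    rw [add_zero] at h1
    filter_upwards [h1.eventually_lt_const hk, eventually_ge_atTop m] with n hn hnm
    refine lt_of_le_of_lt ?_ hn
    have hn0 : (0 : ℝ) < n := by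
      have : (m : ℝ) ≤ n := by exact_mod_cast hnm
      linarith
    have hN : 1 ≤ n / m := (Nat.le_div_iff_mul_le (by omega)).2 (by omega)
    have e : n = n / m * m + n % m := (Nat.div_add_mod' n m).symm
    have e' : (n : ℝ) = (n / m : ℕ) * m + (n % m : ℕ) := by exact_mod_cast e
    have ht : ((n % m : ℕ) : ℝ) ≤ m := by exact_mod_cast (Nat.mod_lt n (by omega)).le
    have ht0 : (0 : ℝ) ≤ ((n % m : ℕ) : ℝ) := Nat.cast_nonneg _
    have h2 := hstep (n / m * m) (n % m)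
    rw [← e] at h2
    have h3 := hab (n / m * m)
    have h4 := hmul m (by omega) (n / m) hN
    have h5 : ((n / m : ℕ) : ℝ) * b m ≤ b m / m * n + |b m| := by
      have h6 : b m / m * n = (n / m : ℕ) * b m + b m * ((n % m : ℕ) / m) := by
        conv_lhs => rw [e']
        field_simp
      have h7 : ((n % m : ℕ) : ℝ) / m ≤ 1 := (div_le_one hm0).2 ht
      have h8 : 0 ≤ ((n % m : ℕ) : ℝ) / m := by positivity
      rw [h6]
      nlinarith [neg_abs_le (b m), abs_nonneg (b m)]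
    have h9 := mul_le_mul_of_nonneg_left ht hK
    rw [div_le_iff₀ hn0, add_mul, div_mul_cancel₀ _ hn0.ne']
    linarith

end Pool.Agent.H742Z.GP.Limit
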