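import Pool.Agent.H742Z.GP.Defs2
import Pool.Agent.H509Z.GP.Conc1
import Pool.Agent.H509Z.GP.Seq

/-!
Law of large numbers in mean for greedy paths with bounded weights.
-/

set_option autoImplicit false

open scoped ENNReal
open MeasureTheory ProbabilityTheory Filter Topology Set

namespace Pool.Agent.H742Z.GP

universe u

namespace Limit

open Pool.Agent.H4R2.AE.Conc

variable {d : ℕ}

theorem cut (n : ℕ) : ∀ (m : ℕ) (x : V d) (l : List (V d)), IsSAW (m + n) x l →
    ∃ y ∈ ball x m, IsSAW n y (l.drop m) := by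
  intro m
  induction m with
  | zero => intro x l h; exact ⟨x, self_mem_ball x 0, by simpa using h⟩
  | succ m ih =>
    intro x l h
    obtain ⟨h1, h2, h3⟩ := h
    cases l with
    | nil => simp at h1; omega
    | cons z l =>
      rw [List.isChain_cons_cons] at h3
      obtain ⟨y, hy, hs⟩ := ih z l ⟨by simp at h1; omega, (List.nodup_cons.1 h2).2, h3.2⟩
      refine ⟨y, ?_, by simpa using hs⟩
      rw [mem_ball] at hy ⊢
      intro i
      have h4 := hy i
      have h5 := h3.1.abs_le i
      push_cast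
      rw [abs_le] at *
      omega

theorem G_cut (hd : 1 ≤ d) (m n : ℕ) (x : V d) (w : V d → ℝ) :
    ∃ y ∈ ball x m, G (m + n) x w ≤ G m x w + G n y w := by
  obtain ⟨l, hl, e⟩ := exists_G hd (m + n) x w
  obtain ⟨y, hy, hs⟩ := cut n m x l hl
  refine ⟨y, hy, ?_⟩
  have h1 := le_G (hl.take (Nat.le_add_right m n)) w
  have h2 := le_G hs w
  have h3 : (l.map w).sum = ((l.take m).map w).sum + ((l.drop m).map w).sum := by
    rw [← List.sum_append, ← List.map_append, List.take_append_drop]
  linarith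

theorem G_congr (hd : 1 ≤ d) (n : ℕ) (x : V d) {w w' : V d → ℝ}
    (h : ∀ v ∈ ball x n, w v = w' v) : G n x w = G n x w' := by
  have key : ∀ w w' : V d → ℝ, (∀ v ∈ ball x n, w v = w' v) → G n x w ≤ G n x w' := by
    intro w w' h
    obtain ⟨l, hl, e⟩ := exists_G hd n x w
    rw [e, List.map_congr_left fun v hv => h v (hl.mem_ball v hv)]
    exact le_G hl w'
  exact le_antisymm (key w w' h) (key w' w fun v hv => (h v hv).symm)

theorem abs_clip {K : ℝ} (hK : 0 ≤ K) (y : ℝ) : |clip K K y| ≤ K :=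
  abs_le.2 ⟨le_max_left _ _, max_le (by linarith) (min_le_right _ _)⟩

theorem clip_eq {K y : ℝ} (h : |y| ≤ K) : clip K K y = y := by
  rw [clip, min_eq_left (abs_le.1 h).2, max_eq_right (abs_le.1 h).1]

open Classical in
/-- extension by zero of the truncated weights -/
noncomputable def ext (S : Finset (V d)) (K : ℝ) (η : S → ℝ) (v : V d) : ℝ :=
  if h : v ∈ S then clip K K (η ⟨v, h⟩) else 0

theorem abs_ext (S : Finset (V d)) {K : ℝ} (hK : 0 ≤ K) (η : S → ℝ) (v : V d) :
    |ext S K η v| ≤ K := by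
  unfold ext
  split_ifs
  · exact abs_clip hK _
  · simpa using hK

theorem meas_ext (S : Finset (V d)) (K : ℝ) (v : V d) :
    Measurable fun η : S → ℝ => ext S K η v := by
  unfold ext clip
  split_ifs
  · exact measurable_const.max ((measurable_pi_apply _).min measurable_const)
  · exact measurable_const

theorem osc (hd : 1 ≤ d) (n : ℕ) (S : Finset (V d)) {K : ℝ} (hK : 0 ≤ K) (ω τ : S → ℝ) :
    ∑ z, (max 0 (G n 0 (ext S K ω) - G n 0 (ext S K (Function.update ω z (τ z))))) ^ 2 ≤
      (2 * K * Real.sqrt n) ^ 2 := by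
  classical
  obtain ⟨l, hl, e⟩ := exists_G hd n 0 (ext S K ω)
  have hnd : l.Nodup := (List.nodup_cons.1 hl.2.1).2
  have h1 : ∀ z : S,
      (max 0 (G n 0 (ext S K ω) - G n 0 (ext S K (Function.update ω z (τ z))))) ^ 2 ≤
        if z.1 ∈ l.toFinset then (2 * K) ^ 2 else 0 := by
    intro z
    have h2 := le_G hl (ext S K (Function.update ω z (τ z)))
    rw [e]
    rw [← List.sum_toFinset _ hnd] at h2 ⊢
    have h3 : ∑ v ∈ l.toFinset, ext S K ω v -
        ∑ v ∈ l.toFinset, ext S K (Function.update ω z (τ z)) v ≤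
        if z.1 ∈ l.toFinset then 2 * K else 0 := by
      rw [← Finset.sum_sub_distrib, ← Finset.sum_ite_eq' l.toFinset z.1 fun _ => 2 * K]
      refine Finset.sum_le_sum fun v _ => ?_
      split_ifs with hv
      · have h4 := abs_le.1 (abs_ext S hK ω v)
        have h5 := abs_le.1 (abs_ext S hK (Function.update ω z (τ z)) v)
        linarith
      · unfold ext
        split_ifs with hS
        · rw [Function.update_of_ne fun h => hv (congrArg Subtype.val h)]
          simp
        · simp
    split_ifs with hz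
    · rw [if_pos hz] at h3
      exact pow_le_pow_left₀ (le_max_left _ _) (max_le (by linarith) (by linarith)) 2
    · rw [if_neg hz] at h3
      rw [max_eq_left (by linarith)]
      simp
  refine (Finset.sum_le_sum fun z _ => h1 z).trans ?_
  rw [Finset.sum_coe_sort S fun v => if v ∈ l.toFinset then (2 * K) ^ 2 else 0,
    Finset.sum_ite_mem, Finset.sum_const, nsmul_eq_mul, mul_pow _ (Real.sqrt n),
    Real.sq_sqrt (Nat.cast_nonneg n), mul_comm]
  refine mul_le_mul_of_nonneg_left ?_ (sq_nonneg _)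
  have h6 : (S ∩ l.toFinset).card ≤ n :=
    (Finset.card_le_card Finset.inter_subset_right).trans
      ((List.toFinset_card_le l).trans hl.1.le)
  exact_mod_cast h6

theorem conc_G (hd : 1 ≤ d) {Ω : Type u} [MeasurableSpace Ω] (P : Measure Ω)
    [IsProbabilityMeasure P] (Y : V d → Ω → ℝ) (hm : ∀ v, Measurable (Y v))
    (hi : iIndepFun Y P) (hid : ∀ v, IdentDistrib (Y v) (Y 0) P P) {K : ℝ} (hK0 : 0 < K)
    (hK : ∀ v ω, |Y v ω| ≤ K) (n : ℕ) (x : V d) :
    ∫ ω, G n x (fun v => Y v ω) ∂P = ∫ ω, G n 0 (fun v => Y v ω) ∂P ∧ (1 ≤ n →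
      ∫ ω, Real.exp (1 / (2 * K * Real.sqrt n) *
        (G n x (fun v => Y v ω) - ∫ ω, G n 0 (fun v => Y v ω) ∂P)) ∂P ≤ 3) := by
  classical
  set S := ball (0 : V d) n with hS
  set μ := P.map (Y 0) with hμ
  have : IsProbabilityMeasure μ := Measure.isProbabilityMeasure_map (hm 0).aemeasurable
  set F : (S → ℝ) → ℝ := fun η => G n 0 (ext S K η) with hF
  have hFm : Measurable F := measurable_G hd n 0 (fun v η => ext S K η v) (meas_ext S K)
  have hFb : ∀ η, |F η| ≤ K * n := fun η => abs_G_le hd n 0 (abs_ext S hK0.le η)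
  have hmp : ∀ x : V d, MeasurePreserving (fun ω (v : S) => Y (v.1 + x) ω) P (PP S μ) := by
    intro x
    refine ⟨measurable_pi_lambda _ fun v => hm _, ?_⟩
    have h1 : iIndepFun (fun v : S => Y (v.1 + x)) P :=
      hi.precomp (g := fun v : S => v.1 + x) fun a b h => Subtype.ext (add_right_cancel h)
    rw [(iIndepFun_iff_map_fun_eq_pi_map fun v : S => (hm (v.1 + x)).aemeasurable).1 h1]
    congr 1
    funext v
    exact (hid _).map_eq
  have hFG : ∀ (x : V d) ω, G n x (fun v => Y v ω) = F fun v : S => Y (v.1 + x) ω := by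
    intro x ω
    rw [G_shift]
    refine G_congr hd n 0 fun v hv => ?_
    unfold ext
    rw [dif_pos hv, clip_eq (hK _ _)]
  have hint : ∀ x : V d, ∫ ω, G n x (fun v => Y v ω) ∂P = ∫ η, F η ∂(PP S μ) := by
    intro x
    simp only [hFG x]
    exact int_mp (hmp x) hFm
  refine ⟨by rw [hint x, hint 0], fun hn => ?_⟩
  have hs : 0 < Real.sqrt n := Real.sqrt_pos.2 (by exact_mod_cast hn)
  have hL : 0 < 2 * K * Real.sqrt n := by positivity
  have hle : (1 / (2 * K * Real.sqrt n)) ^ 2 * (2 * K * Real.sqrt n) ^ 2 = 1 := by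
    field_simp
  have hU := exp_conc1 (μ := μ) F hFm (K * n) hFb (2 * K * Real.sqrt n)
    (osc hd n S hK0.le) (1 / (2 * K * Real.sqrt n)) (by positivity) hle.le
  rw [hle] at hU
  rw [hint 0]
  simp only [hFG x, mul_sub, Real.exp_sub]
  rw [integral_div, int_mp (hmp x) (g := fun η => Real.exp (1 / (2 * K * Real.sqrt n) * F η))
    (hFm.const_mul _).exp, div_le_iff₀ (Real.exp_pos _)]
  refine hU.trans ?_
  rw [Real.exp_add, mul_comm]
  refine mul_le_mul_of_nonneg_right ?_ (Real.exp_pos _).le
  have h1 : Real.exp (2 / 3 * 1) ≤ Real.exp 1 := Real.exp_le_exp.2 (by norm_num)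
  linarith [Real.exp_one_lt_d9]

end Limit

open Limit Pool.Agent.H4R2.AE.Conc in
theorem bounded_limit {d : ℕ} (hd : 1 ≤ d) {Ω : Type u} [MeasurableSpace Ω] (P : Measure Ω)
    [IsProbabilityMeasure P] (Y : V d → Ω → ℝ) (hm : ∀ v, Measurable (Y v))
    (hi : iIndepFun Y P) (hid : ∀ v, IdentDistrib (Y v) (Y 0) P P) (K : ℝ)
    (hK : ∀ v ω, |Y v ω| ≤ K) :
    ∃ m : ℝ, Tendsto (fun n : ℕ => ∫ ω, |G n 0 (fun v => Y v ω) / n - m| ∂P) atTop (𝓝 0) := by
  obtain ⟨K, hK0, hK⟩ : ∃ K : ℝ, 0 < K ∧ ∀ v ω, |Y v ω| ≤ K :=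
    ⟨|K| + 1, by positivity, fun v ω => by linarith [hK v ω, le_abs_self K]⟩
  have hc := conc_G hd P Y hm hi hid hK0 hK
  set a : ℕ → ℝ := fun n => ∫ ω, G n 0 (fun v => Y v ω) ∂P with ha
  have hGm : ∀ n x, Measurable fun ω => G n x (fun v => Y v ω) := fun n x =>
    measurable_G hd n x Y hm
  have hGb : ∀ n x ω, |G n x (fun v => Y v ω)| ≤ K * n := fun n x ω =>
    abs_G_le hd n x fun v => hK v ω
  have hGi : ∀ n x, Integrable (fun ω => G n x (fun v => Y v ω)) P := fun n x =>
    int_bd (hGm n x) (hGb n x)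
  have hEi : ∀ (n : ℕ) x (c e : ℝ),
      Integrable (fun ω => Real.exp (c * (G n x (fun v => Y v ω) - e))) P := by
    intro n x c e
    refine int_bd (((hGm n x).sub_const e).const_mul c).exp
      (C := Real.exp (|c| * (K * n + |e|))) fun ω => ?_
    rw [abs_of_pos (Real.exp_pos _)]
    refine Real.exp_le_exp.2 ((le_abs_self _).trans ?_)
    rw [abs_mul]
    refine mul_le_mul_of_nonneg_left ((abs_sub _ _).trans ?_) (abs_nonneg _)
    linarith [hGb n x ω]
  have hb : ∀ n, |a n| ≤ K * n := by
    intro n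
    have := norm_integral_le_of_norm_le_const (μ := P)
      (f := fun ω => G n 0 (fun v => Y v ω)) (C := K * n) (Eventually.of_forall (hGb n 0))
    simpa using this
  have hstep : ∀ m t : ℕ, a (m + t) ≤ a m + K * t := by
    intro m t
    have h1 : ∫ ω, G (m + t) 0 (fun v => Y v ω) ∂P ≤
        ∫ ω, (G m 0 (fun v => Y v ω) + K * t) ∂P := by
      refine integral_mono (hGi _ _) ((hGi _ _).add (integrable_const _)) fun ω => ?_
      obtain ⟨y, -, hy⟩ := G_cut hd m t 0 fun v => Y v ω
      have := (abs_le.1 (hGb t y ω)).2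
      simp only
      linarith
    rw [integral_add (hGi _ _) (integrable_const _)] at h1
    simpa using h1
  have hsub : ∀ x y : ℕ, 1 ≤ x → 1 ≤ y →
      a (x + y) ≤ a x + a y + 2 * K * (8 * d + 3) * r4 ((x : ℝ) + y) ^ 3 := by
    intro x y hx hy
    have hs : 0 < Real.sqrt y := Real.sqrt_pos.2 (by exact_mod_cast hy)
    set L := 2 * K * Real.sqrt y with hL
    have hL0 : 0 < L := by positivity
    set T : ℝ := (2 * x + 1) ^ d with hT
    have hT0 : 0 < T := by positivity
    have hSi : Integrable (fun ω => ∑ z ∈ ball (0 : V d) x,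
        Real.exp (1 / L * (G y z (fun v => Y v ω) - a y))) P :=
      integrable_finsetSum _ fun z _ => hEi y z _ _
    have h1 : ∫ ω, G (x + y) 0 (fun v => Y v ω) ∂P ≤
        ∫ ω, (G x 0 (fun v => Y v ω) + ((a y + L * Real.log T) + L / T *
          ∑ z ∈ ball (0 : V d) x, Real.exp (1 / L * (G y z (fun v => Y v ω) - a y)))) ∂P := by
      refine integral_mono (hGi _ _)
        ((hGi _ _).add ((integrable_const _).add (hSi.const_mul _))) fun ω => ?_
      obtain ⟨z, hz, hyz⟩ := G_cut hd x y 0 fun v => Y v ω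
      have h2 : Real.exp (1 / L * (G y z (fun v => Y v ω) - a y)) ≤ ∑ z ∈ ball (0 : V d) x,
          Real.exp (1 / L * (G y z (fun v => Y v ω) - a y)) :=
        Finset.single_le_sum (f := fun z => Real.exp (1 / L * (G y z (fun v => Y v ω) - a y)))
          (fun _ _ => (Real.exp_pos _).le) hz
      have h3 := Real.add_one_le_exp (1 / L * (G y z (fun v => Y v ω) - a y) - Real.log T)
      rw [Real.exp_sub, Real.exp_log hT0] at h3
      have h4 := mul_le_mul_of_nonneg_left h3 hL0.le
      have h5 := mul_le_mul_of_nonneg_left h2 (div_pos hL0 hT0).le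
      have e1 : L * (1 / L * (G y z (fun v => Y v ω) - a y) - Real.log T + 1) =
          G y z (fun v => Y v ω) - a y - L * Real.log T + L := by field_simp
      have e2 : L * (Real.exp (1 / L * (G y z (fun v => Y v ω) - a y)) / T) =
          L / T * Real.exp (1 / L * (G y z (fun v => Y v ω) - a y)) := by ring
      rw [e1, e2] at h4
      simp only
      linarith
    have hI2 : Integrable (fun ω => (a y + L * Real.log T) + L / T *
        ∑ z ∈ ball (0 : V d) x, Real.exp (1 / L * (G y z (fun v => Y v ω) - a y))) P :=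
      (integrable_const _).add (hSi.const_mul _)
    rw [integral_add (hGi _ _) hI2,
      integral_add (integrable_const _) (hSi.const_mul _), integral_const_mul,
      integral_finsetSum _ fun z _ => hEi y z _ _] at h1
    have h6 : ∑ z ∈ ball (0 : V d) x,
        ∫ ω, Real.exp (1 / L * (G y z (fun v => Y v ω) - a y)) ∂P ≤ T * 3 := by
      refine (Finset.sum_le_sum fun z _ => (hc y z).2 hy).trans (le_of_eq ?_)
      rw [Finset.sum_const, card_ball, nsmul_eq_mul, hT]
      push_cast; rfl
    have h7 := mul_le_mul_of_nonneg_left h6 (div_pos hL0 hT0).le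
    have e3 : L / T * (T * 3) = L * 3 := by field_simp
    rw [e3] at h7
    simp only [integral_const, probReal_univ, one_smul] at h1
    have hx' : (1 : ℝ) ≤ x := by exact_mod_cast hx
    have hy' : (1 : ℝ) ≤ y := by exact_mod_cast hy
    have h8 : Real.log T ≤ d * (8 * r4 ((x : ℝ) + y)) := by
      rw [hT, Real.log_pow]
      refine mul_le_mul_of_nonneg_left ?_ (Nat.cast_nonneg d)
      have h9 := log_le_r4 (z := 2 * (x : ℝ) + 1) (by linarith)
      have h10 := r4_le (x := 2 * (x : ℝ) + 1) (s := (x : ℝ) + y) (c := 1 / 2) (by linarith)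
        (by linarith) (by norm_num; linarith)
      linarith
    have h11 := one_le_r4 (s := (x : ℝ) + y) (by linarith)
    have h12 : Real.sqrt y ≤ r4 ((x : ℝ) + y) ^ 2 := by
      rw [r4_sq]; exact Real.sqrt_le_sqrt (by linarith)
    have h13 : L * (Real.log T + 3) ≤
        2 * K * r4 ((x : ℝ) + y) ^ 2 * ((8 * d + 3) * r4 ((x : ℝ) + y)) :=
      le_trans (mul_le_mul_of_nonneg_left (by nlinarith) hL0.le)
        (mul_le_mul_of_nonneg_right (mul_le_mul_of_nonneg_left h12 (by positivity))
          (by positivity))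
    change a (x + y) ≤ a x + _ at h1
    nlinarith
  obtain ⟨m, hlim⟩ := seq_limit a K _ hK0.le (by positivity) hb hstep hsub
  refine ⟨m, ?_⟩
  have hdev : ∀ n : ℕ, 1 ≤ n →
      ∫ ω, |G n 0 (fun v => Y v ω) - a n| ∂P ≤ 12 * K * Real.sqrt n := by
    intro n hn
    have hs : 0 < Real.sqrt n := Real.sqrt_pos.2 (by exact_mod_cast hn)
    set L := 2 * K * Real.sqrt n with hL
    have hL0 : 0 < L := by positivity
    have h1 : ∫ ω, |G n 0 (fun v => Y v ω) - a n| ∂P ≤
        ∫ ω, (2 * L * Real.exp (1 / L * (G n 0 (fun v => Y v ω) - a n)) -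
          (G n 0 (fun v => Y v ω) - a n)) ∂P := by
      refine integral_mono ((hGi _ _).sub (integrable_const _)).abs
        (((hEi _ _ _ _).const_mul _).sub ((hGi _ _).sub (integrable_const _))) fun ω => ?_
      have h3 := mul_le_mul_of_nonneg_left
        (Real.add_one_le_exp (1 / L * (G n 0 (fun v => Y v ω) - a n))) hL0.le
      have e1 : L * (1 / L * (G n 0 (fun v => Y v ω) - a n) + 1) =
          G n 0 (fun v => Y v ω) - a n + L := by field_simp
      rw [e1] at h3
      have h4 := mul_pos hL0 (Real.exp_pos (1 / L * (G n 0 (fun v => Y v ω) - a n)))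
      simp only
      rw [abs_le]
      constructor <;> linarith
    have hI3 : Integrable (fun ω => G n 0 (fun v => Y v ω) - a n) P :=
      (hGi _ _).sub (integrable_const _)
    rw [integral_sub ((hEi _ _ _ _).const_mul _) hI3,
      integral_sub (hGi _ _) (integrable_const _), integral_const_mul] at h1
    simp only [integral_const, probReal_univ, one_smul] at h1
    have h2 := mul_le_mul_of_nonneg_left ((hc n 0).2 hn) (by positivity : 0 ≤ 2 * L)
    change _ ≤ _ - (a n - a n) at h1
    linarith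
  have h1 : Tendsto (fun n : ℕ => 12 * K / Real.sqrt n + |a n / n - m|) atTop (𝓝 (0 + |m - m|)) :=
    (tendsto_const_nhds.div_atTop
      (Real.tendsto_sqrt_atTop.comp tendsto_natCast_atTop_atTop)).add (hlim.sub_const m).abs
  rw [sub_self, abs_zero, add_zero] at h1
  refine squeeze_zero' (Eventually.of_forall fun n => integral_nonneg fun ω => abs_nonneg _) ?_ h1
  filter_upwards [eventually_ge_atTop 1] with n hn
  have hn0 : (0 : ℝ) < n := by exact_mod_cast hn
  have hs : 0 < Real.sqrt n := Real.sqrt_pos.2 hn0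
  have hi1 : Integrable (fun ω => |G n 0 (fun v => Y v ω) - a n| / n) P :=
    ((hGi _ _).sub (integrable_const _)).abs.div_const _
  have h2 : ∫ ω, |G n 0 (fun v => Y v ω) / n - m| ∂P ≤
      ∫ ω, (|G n 0 (fun v => Y v ω) - a n| / n + |a n / n - m|) ∂P := by
    refine integral_mono (((hGi _ _).div_const _).sub (integrable_const _)).abs
      (hi1.add (integrable_const _)) fun ω => ?_
    have h3 := abs_add_le ((G n 0 (fun v => Y v ω) - a n) / n) (a n / n - m)
    rw [abs_div, abs_of_pos hn0] at h3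
    have e : (G n 0 (fun v => Y v ω) - a n) / n + (a n / n - m) =
        G n 0 (fun v => Y v ω) / n - m := by ring
    rw [e] at h3
    exact h3
  rw [integral_add hi1 (integrable_const _), integral_div] at h2
  simp only [integral_const, probReal_univ, one_smul] at h2
  refine h2.trans (add_le_add_left ?_ _)
  rw [div_le_div_iff₀ hn0 hs]
  have h4 := mul_le_mul_of_nonneg_right (hdev n hn) hs.le
  have h5 := Real.mul_self_sqrt hn0.le
  nlinarith

end Pool.Agent.H742Z.GP
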